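import Pool.Agent.N869.GK.StmX

/-!
Project GK (helper869), part X-DTW: doubling near the points of order two.
-/

set_option autoImplicit false

namespace Pool.Agent.N91.GK

open WeierstrassCurve Pool.Agent.N869.GK.X
open scoped Classical

section
variable {K : Type} [Field K]

lemma eqn {e1 e2 e3 x y : K} (h : (Wk e1 e2 e3).toAffine.Nonsingular x y) :
    y ^ 2 = (x - e1) * (x - e2) * (x - e3) := by
  have h1 := (Affine.equation_iff x y).1 h.1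
  simp only [Wk] at h1
  linear_combination h1

lemma dbl {e1 e2 e3 x y : K} (h2 : (2 : K) ≠ 0) (h : (Wk e1 e2 e3).toAffine.Nonsingular x y)
    (hy : y ≠ 0) :
    ∃ (x' y' : K) (h' : (Wk e1 e2 e3).toAffine.Nonsingular x' y'),
      Affine.Point.some x y h + Affine.Point.some x y h = Affine.Point.some x' y' h' ∧
      4 * y ^ 2 * (x' - e1) = ((x - e1) ^ 2 - (e1 - e2) * (e1 - e3)) ^ 2 ∧
      4 * y ^ 2 * (x' - e2) = ((x - e2) ^ 2 - (e2 - e1) * (e2 - e3)) ^ 2 ∧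
      4 * y ^ 2 * (x' - e3) = ((x - e3) ^ 2 - (e3 - e1) * (e3 - e2)) ^ 2 := by
  have hneg : (Wk e1 e2 e3).toAffine.negY x y = -y := by
    simp [Affine.negY, Wk]
  have hy2 : y ≠ (Wk e1 e2 e3).toAffine.negY x y := by
    rw [hneg]
    intro h3
    have h4 : 2 * y = 0 := by linear_combination h3
    exact (mul_ne_zero h2 hy) h4
  have hsl : (Wk e1 e2 e3).toAffine.slope x x y y =
      (3 * x ^ 2 - 2 * (e1 + e2 + e3) * x + (e1 * e2 + e1 * e3 + e2 * e3)) / (2 * y) := by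
    rw [Affine.slope_of_Y_ne rfl hy2, hneg]
    simp only [Wk]
    congr 1
    · ring
    · ring
  have hE := eqn h
  have h2y : 2 * y ≠ 0 := mul_ne_zero h2 hy
  refine ⟨_, _, _, Affine.Point.add_self_of_Y_ne hy2, ?_, ?_, ?_⟩
  all_goals
    rw [hsl]
    simp only [Affine.addX, Wk]
    generalize hN : 3 * x ^ 2 - 2 * (e1 + e2 + e3) * x + (e1 * e2 + e1 * e3 + e2 * e3) = N
    have h3 : (N / (2 * y)) ^ 2 * (4 * y ^ 2) = N ^ 2 := by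
      field_simp
      ring
    have h4 : (N / (2 * y)) ^ 2 * (4 * y ^ 2) =
      (3 * x ^ 2 - 2 * (e1 + e2 + e3) * x + (e1 * e2 + e1 * e3 + e2 * e3)) ^ 2 := by
      rw [h3, hN]
  · linear_combination h4 + (4 * (-2 * x + e2 + e3)) * hE
  · linear_combination h4 + (4 * (-2 * x + e1 + e3)) * hE
  · linear_combination h4 + (4 * (-2 * x + e1 + e2)) * hE

end

lemma root {p : ℕ} [hp : Fact p.Prime] {a d x y x' : ℚ_[p]} {c C M ε : ℝ} (hc : 0 < c) (hc1 : c ≤ 1)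
    (hcd : c ≤ ‖d‖) (hd1 : ‖d‖ ≤ 1) (hM1 : 1 ≤ M) (hCM : C ≤ M) (hε : ε = c / (M + 1)) (ha : ‖a‖ ≤ 1)
    (hy : y ≠ 0) (hye : ‖y‖ < ε) (hx : ‖x - a‖ ^ 3 ≤ ‖y‖ ^ 2)
    (hf : 4 * y ^ 2 * (x' - a) = ((x - a) ^ 2 - d) ^ 2) : C < ‖x'‖ := by
  have hM0 : 0 < M + 1 := by linarith
  have hε0 : 0 < ε := by rw [hε]; positivity
  have hεc : ε ≤ c := by
    rw [hε]
    exact div_le_self hc.le (by linarith)
  have hy0 : 0 < ‖y‖ := norm_pos_iff.2 hy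
  have h1 : ‖x - a‖ ^ 2 < c := by
    by_contra hcon
    push Not at hcon
    have ht0 : 0 ≤ ‖x - a‖ := norm_nonneg _
    have e1 : c ^ 3 ≤ (‖x - a‖ ^ 2) ^ 3 := pow_le_pow_left₀ hc.le hcon 3
    have e2 : (‖x - a‖ ^ 3) ^ 2 ≤ (‖y‖ ^ 2) ^ 2 := pow_le_pow_left₀ (by positivity) hx 2
    have e3 : (‖y‖ ^ 2) ^ 2 < (ε ^ 2) ^ 2 := by
      have : ‖y‖ ^ 2 < ε ^ 2 := pow_lt_pow_left₀ hye hy0.le (by norm_num)
      exact pow_lt_pow_left₀ this (by positivity) (by norm_num)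
    have e4 : (ε ^ 2) ^ 2 ≤ c ^ 4 := by
      rw [← pow_mul]
      exact pow_le_pow_left₀ hε0.le hεc 4
    have e5 : c ^ 4 ≤ c ^ 3 := pow_le_pow_of_le_one hc.le hc1 (by norm_num)
    have e6 : (‖x - a‖ ^ 2) ^ 3 = (‖x - a‖ ^ 3) ^ 2 := by ring
    linarith
  have h2 : ‖(x - a) ^ 2 - d‖ = ‖d‖ := by
    have e1 : ‖(x - a) ^ 2‖ < ‖d‖ := by
      rw [norm_pow]
      linarith
    rw [sub_eq_add_neg, IsUltrametricDist.norm_add_eq_max_of_norm_ne_norm (by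
      rw [norm_neg]; exact e1.ne), norm_neg, max_eq_right e1.le]
  have h3 : ‖(4 : ℚ_[p])‖ * ‖y‖ ^ 2 * ‖x' - a‖ = ‖d‖ ^ 2 := by
    have := congrArg norm hf
    rw [norm_mul, norm_mul, norm_pow, norm_pow, h2] at this
    exact this
  have h4 : ‖(4 : ℚ_[p])‖ ≤ 1 := by
    have := Padic.norm_int_le_one (p := p) 4
    simpa using this
  have h5 : c ^ 2 ≤ ‖y‖ ^ 2 * ‖x' - a‖ := by
    have e1 : c ^ 2 ≤ ‖d‖ ^ 2 := pow_le_pow_left₀ hc.le hcd 2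
    have e2 : ‖(4 : ℚ_[p])‖ * (‖y‖ ^ 2 * ‖x' - a‖) ≤ 1 * (‖y‖ ^ 2 * ‖x' - a‖) := by
      apply mul_le_mul_of_nonneg_right h4
      positivity
    rw [one_mul, ← mul_assoc, h3] at e2
    linarith
  have h6 : (M + 1) ^ 2 ≤ ‖x' - a‖ := by
    have e1 : ‖y‖ ^ 2 * ‖x' - a‖ ≤ ε ^ 2 * ‖x' - a‖ := by
      apply mul_le_mul_of_nonneg_right _ (norm_nonneg _)
      exact pow_le_pow_left₀ hy0.le hye.le 2
    have e2 : c ^ 2 ≤ ε ^ 2 * ‖x' - a‖ := h5.trans e1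
    rw [hε, div_pow] at e2
    have e3 : c ^ 2 / (M + 1) ^ 2 * ‖x' - a‖ = c ^ 2 * (‖x' - a‖ / (M + 1) ^ 2) := by
      ring
    rw [e3] at e2
    have e4 : 1 ≤ ‖x' - a‖ / (M + 1) ^ 2 := by
      have hc2 : 0 < c ^ 2 := by positivity
      nlinarith
    rwa [le_div_iff₀ (by positivity), one_mul] at e4
  by_contra hcon
  push Not at hcon
  have h7 : ‖x' - a‖ ≤ max ‖x'‖ ‖a‖ := by
    rw [sub_eq_add_neg]
    have := IsUltrametricDist.norm_add_le_max x' (-a)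
    rwa [norm_neg] at this
  have h8 : max ‖x'‖ ‖a‖ ≤ M := max_le (hcon.trans hCM) (ha.trans hM1)
  nlinarith

theorem t_DTW : S_DTW := by
  intro p hp e1 e2 e3 h12 h13 h23 C
  have hi : ∀ m : ℤ, ‖(m : ℚ_[p])‖ ≤ 1 := fun m => Padic.norm_int_le_one m
  have hpos : ∀ m : ℤ, m ≠ 0 → 0 < ‖(m : ℚ_[p])‖ := by
    intro m hm
    rw [norm_pos_iff]
    exact_mod_cast hm
  set d1 : ℤ := (e1 - e2) * (e1 - e3) with hd1
  set d2 : ℤ := (e2 - e1) * (e2 - e3) with hd2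
  set d3 : ℤ := (e3 - e1) * (e3 - e2) with hd3
  have n1 : d1 ≠ 0 := mul_ne_zero (sub_ne_zero.2 h12) (sub_ne_zero.2 h13)
  have n2 : d2 ≠ 0 := mul_ne_zero (sub_ne_zero.2 h12.symm) (sub_ne_zero.2 h23)
  have n3 : d3 ≠ 0 := mul_ne_zero (sub_ne_zero.2 h13.symm) (sub_ne_zero.2 h23.symm)
  set c : ℝ := min ‖(d1 : ℚ_[p])‖ (min ‖(d2 : ℚ_[p])‖ ‖(d3 : ℚ_[p])‖) with hcdef
  have hc : 0 < c := lt_min (hpos _ n1) (lt_min (hpos _ n2) (hpos _ n3))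
  have hc1 : c ≤ 1 := (min_le_left _ _).trans (hi _)
  set M : ℝ := max C 1 with hM
  have hM1 : 1 ≤ M := le_max_right _ _
  have hCM : C ≤ M := le_max_left _ _
  have hε0 : 0 < c / (M + 1) := by
    have : 0 < M + 1 := by linarith
    positivity
  refine ⟨c / (M + 1), hε0, ?_⟩
  intro x y h hy hye
  have h2 : (2 : ℚ_[p]) ≠ 0 := two_ne_zero
  obtain ⟨x', y', h', hadd, f1, f2, f3⟩ := dbl h2 h hy
  refine ⟨x', y', h', hadd, ?_⟩
  have hE := congrArg norm (eqn h)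
  rw [norm_pow, norm_mul, norm_mul] at hE
  have hc2 : c ≤ ‖(d2 : ℚ_[p])‖ := (min_le_right _ _).trans (min_le_left _ _)
  have hc3 : c ≤ ‖(d3 : ℚ_[p])‖ := (min_le_right _ _).trans (min_le_right _ _)
  have hcc1 : c ≤ ‖(d1 : ℚ_[p])‖ := min_le_left _ _
  -- the smallest factor
  have hsm : ∀ u v w : ℝ, 0 ≤ u → u ≤ v → u ≤ w → u ^ 3 ≤ u * v * w := by
    intro u v w hu huv huw
    have e1 : u * u ≤ v * w := mul_le_mul huv huw hu (hu.trans huv)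
    calc u ^ 3 = u * (u * u) := by ring
      _ ≤ u * (v * w) := mul_le_mul_of_nonneg_left e1 hu
      _ = u * v * w := by ring
  have n0 : ∀ z : ℚ_[p], 0 ≤ ‖z‖ := fun z => norm_nonneg z
  rcases le_total ‖x - (e1 : ℚ_[p])‖ ‖x - (e2 : ℚ_[p])‖ with a1 | a1
  · rcases le_total ‖x - (e1 : ℚ_[p])‖ ‖x - (e3 : ℚ_[p])‖ with a2 | a2
    · refine root (d := (d1 : ℚ_[p])) (a := (e1 : ℚ_[p])) (x := x) hc hc1 hcc1 (hi _) hM1 hCM rfl (hi _)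
        hy hye ?_ ?_
      · rw [hE]; exact hsm _ _ _ (n0 _) a1 a2
      · rw [f1, hd1]; push_cast; ring
    · refine root (d := (d3 : ℚ_[p])) (a := (e3 : ℚ_[p])) (x := x) hc hc1 hc3 (hi _) hM1 hCM rfl (hi _)
        hy hye ?_ ?_
      · rw [hE]
        have := hsm _ _ _ (n0 _) a2 (a2.trans a1)
        linarith [mul_comm (‖x - (e1 : ℚ_[p])‖ * ‖x - (e2 : ℚ_[p])‖) ‖x - (e3 : ℚ_[p])‖,
          mul_assoc ‖x - (e3 : ℚ_[p])‖ ‖x - (e1 : ℚ_[p])‖ ‖x - (e2 : ℚ_[p])‖]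
      · rw [f3, hd3]; push_cast; ring
  · rcases le_total ‖x - (e2 : ℚ_[p])‖ ‖x - (e3 : ℚ_[p])‖ with a2 | a2
    · refine root (d := (d2 : ℚ_[p])) (a := (e2 : ℚ_[p])) (x := x) hc hc1 hc2 (hi _) hM1 hCM rfl (hi _)
        hy hye ?_ ?_
      · rw [hE]
        have := hsm _ _ _ (n0 _) a1 a2
        rw [mul_comm ‖x - (e1 : ℚ_[p])‖ ‖x - (e2 : ℚ_[p])‖]
        exact this
      · rw [f2, hd2]; push_cast; ring
    · refine root (d := (d3 : ℚ_[p])) (a := (e3 : ℚ_[p])) (x := x) hc hc1 hc3 (hi _) hM1 hCM rfl (hi _)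
        hy hye ?_ ?_
      · rw [hE]
        have := hsm _ _ _ (n0 _) (a2.trans a1) a2
        linarith [mul_comm (‖x - (e1 : ℚ_[p])‖ * ‖x - (e2 : ℚ_[p])‖) ‖x - (e3 : ℚ_[p])‖,
          mul_assoc ‖x - (e3 : ℚ_[p])‖ ‖x - (e1 : ℚ_[p])‖ ‖x - (e2 : ℚ_[p])‖]
      · rw [f3, hd3]; push_cast; ring

end Pool.Agent.N91.GK
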